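import Pool.Agent.H91.CX.Eng

/-!
# One level of a presentation with relators `(q i q⁻¹ j⁻¹) ^ m` and `i ^ m`

`K E D` is generated by the group `Q` and letters `i` with the relations `(q i q⁻¹ j⁻¹) ^ m = 1` for
`E q i j m` and `i ^ m = 1` for `D i m`. It embeds in the semidirect product with `Q` of a Coxeter group:
the kernel of the projection to `Q` is the group of the even elements of the Coxeter group.
-/

set_option autoImplicit false
set_option linter.style.haveILetI false
set_option linter.unusedSectionVars false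

namespace Pool.Agent.H91.CY

open Monoid
open Pool.Agent.Y110.FJ (ClosedE)
open Pool.Agent.Y462.SS (Closed)

/-- `(a b⁻¹) ^ m = 1` implies `(a⁻¹ b) ^ m = 1` -/
theorem flip_pow {G : Type*} [Group G] {a b : G} {m : ℕ} (h : (a * b⁻¹) ^ m = 1) :
    (a⁻¹ * b) ^ m = 1 := by
  have h1 : a⁻¹ * b = a⁻¹ * (a * b⁻¹)⁻¹ * (a⁻¹)⁻¹ := by group
  rw [h1, conj_pow, inv_pow, h, inv_one, mul_one, inv_inv, inv_mul_cancel]

variable {Q : Type} [Group Q] {I : Type} (E : Q → I → I → ℕ → Prop) (D : I → ℕ → Prop)

/-- the relators of one level -/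
def kRel : Set (Coprod Q (FreeGroup I)) :=
  {x | (∃ q i j m, E q i j m ∧ x = (Coprod.inl q * Coprod.inr (FreeGroup.of i) * (Coprod.inl q)⁻¹ *
      (Coprod.inr (FreeGroup.of j))⁻¹) ^ m) ∨
    (∃ i m, D i m ∧ x = Coprod.inr (FreeGroup.of i) ^ m)}

/-- one level of a presentation -/
def K : Type := Coprod Q (FreeGroup I) ⧸ Subgroup.normalClosure (kRel E D)

namespace K

instance : Group (K E D) := inferInstanceAs (Group (_ ⧸ _))

/-- the elements of `Q` -/
def q : Q →* K E D :=
  (QuotientGroup.mk' (Subgroup.normalClosure (kRel E D))).comp Coprod.inl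

/-- the letters -/
def y (i : I) : K E D :=
  QuotientGroup.mk' (Subgroup.normalClosure (kRel E D)) (Coprod.inr (FreeGroup.of i))

variable {E D}

theorem rel1 {x : Coprod Q (FreeGroup I)} (hx : x ∈ kRel E D) :
    QuotientGroup.mk' (Subgroup.normalClosure (kRel E D)) x = 1 :=
  (QuotientGroup.eq_one_iff _).2 (Subgroup.subset_normalClosure hx)

theorem cox {a : Q} {i j : I} {m : ℕ} (h : E a i j m) :
    (q E D a * y E D i * (q E D a)⁻¹ * (y E D j)⁻¹) ^ m = 1 := by
  have h1 := rel1 (D := D) (Or.inl ⟨a, i, j, m, h, rfl⟩)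
  rw [map_pow, map_mul, map_mul, map_mul, map_inv, map_inv] at h1
  exact h1

theorem pow {i : I} {m : ℕ} (h : D i m) : y E D i ^ m = 1 := by
  have h1 := rel1 (E := E) (D := D) (Or.inr ⟨i, m, h, rfl⟩)
  rw [map_pow] at h1
  exact h1

variable {H : Type} [Group H]

/-- the universal property -/
def lift (f : Q →* H) (g : I → H)
    (h1 : ∀ a i j m, E a i j m → (f a * g i * (f a)⁻¹ * (g j)⁻¹) ^ m = 1)
    (h2 : ∀ i m, D i m → g i ^ m = 1) :
    K E D →* H :=
  QuotientGroup.lift _ (Coprod.lift f (FreeGroup.lift g)) (by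
    intro z hz
    have h4 : Subgroup.normalClosure (kRel E D) ≤ (Coprod.lift f (FreeGroup.lift g)).ker := by
      refine Subgroup.normalClosure_le_normal ?_
      rintro _ (⟨a, i, j, m, h, rfl⟩ | ⟨i, m, h, rfl⟩)
      · change Coprod.lift f (FreeGroup.lift g) _ = 1
        simp only [map_pow, map_mul, map_inv, Coprod.lift_apply_inl, Coprod.lift_apply_inr,
          FreeGroup.lift_apply_of]
        exact h1 a i j m h
      · change Coprod.lift f (FreeGroup.lift g) _ = 1
        rw [map_pow, Coprod.lift_apply_inr, FreeGroup.lift_apply_of, h2 i m h]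
    exact h4 hz)

section

variable (f : Q →* H) (g : I → H)
    (h1 : ∀ a i j m, E a i j m → (f a * g i * (f a)⁻¹ * (g j)⁻¹) ^ m = 1)
    (h2 : ∀ i m, D i m → g i ^ m = 1)

theorem lift_q (a : Q) : lift f g h1 h2 (q E D a) = f a := by
  change Coprod.lift f (FreeGroup.lift g) (Coprod.inl a) = f a
  rw [Coprod.lift_apply_inl]

theorem lift_y (i : I) : lift f g h1 h2 (y E D i) = g i := by
  change Coprod.lift f (FreeGroup.lift g) (Coprod.inr (FreeGroup.of i)) = g i
  rw [Coprod.lift_apply_inr, FreeGroup.lift_apply_of]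

end

theorem hom_ext {f g : K E D →* H} (h1 : ∀ a, f (q E D a) = g (q E D a))
    (h2 : ∀ i, f (y E D i) = g (y E D i)) : f = g := by
  refine QuotientGroup.monoidHom_ext _ ?_
  refine Coprod.hom_ext ?_ ?_
  · exact MonoidHom.ext h1
  · exact FreeGroup.ext_hom _ _ h2

/-- the endomorphism which inverts the letters -/
def th : K E D →* K E D :=
  lift (q E D) (fun i => (y E D i)⁻¹) (by
    intro a i j m h
    have h1 := flip_pow (cox (D := D) h)
    have h2 : (q E D a * y E D i * (q E D a)⁻¹)⁻¹ * y E D j =
        q E D a * (y E D i)⁻¹ * (q E D a)⁻¹ * ((y E D j)⁻¹)⁻¹ := by group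
    rw [h2] at h1
    exact h1) (by
    intro i m h
    rw [inv_pow, pow h, inv_one])

theorem th_q (a : Q) : th (q E D a) = q E D a := lift_q _ _ _ _ a

theorem th_y (i : I) : th (y E D i) = (y E D i)⁻¹ := lift_y _ _ _ _ i

theorem th_th (x : K E D) : th (th x) = x := by
  have h : (th (E := E) (D := D)).comp th = MonoidHom.id _ := by
    refine hom_ext (fun a => ?_) (fun i => ?_)
    · rw [MonoidHom.comp_apply, th_q, th_q, MonoidHom.id_apply]
    · rw [MonoidHom.comp_apply, th_y, map_inv, th_y, inv_inv, MonoidHom.id_apply]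
  exact DFunLike.congr_fun h x

variable (E D)

/-- the automorphism which inverts the letters -/
def thA : MulAut (K E D) where
  toFun := th
  invFun := th
  left_inv := th_th
  right_inv := th_th
  map_mul' := map_mul th

variable {E D}

theorem thA_apply (x : K E D) : thA E D x = th x := rfl

theorem thA_mul : thA E D * thA E D = 1 := by
  ext x
  exact th_th x

end K

/-! ### the Coxeter group -/

/-- `1` and the conjugates of the letters by the elements of `Q` -/
def X : Type := {x : K E D // x = 1 ∨ ∃ a i, x = K.q E D a * K.y E D i * (K.q E D a)⁻¹}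

variable {E D}

theorem X.th (x : X E D) : K.th x.1 = x.1⁻¹ := by
  obtain ⟨x, rfl | ⟨a, i, rfl⟩⟩ := x
  · change K.th 1 = 1⁻¹
    rw [map_one, inv_one]
  · change K.th (K.q E D a * K.y E D i * (K.q E D a)⁻¹) = (K.q E D a * K.y E D i * (K.q E D a)⁻¹)⁻¹
    rw [map_mul, map_mul, map_inv, K.th_q, K.th_y]
    group

/-- the action of `Q` -/
def X.smul (b : Q) (x : X E D) : X E D :=
  ⟨K.q E D b * x.1 * (K.q E D b)⁻¹, by
    obtain ⟨x, rfl | ⟨a, i, rfl⟩⟩ := x
    · left
      change K.q E D b * 1 * (K.q E D b)⁻¹ = 1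
      rw [mul_one, mul_inv_cancel]
    · refine Or.inr ⟨b * a, i, ?_⟩
      rw [map_mul]
      group⟩

theorem X.smul_val (b : Q) (x : X E D) : (X.smul b x).1 = K.q E D b * x.1 * (K.q E D b)⁻¹ := rfl

theorem X.smul_one (x : X E D) : X.smul 1 x = x := by
  apply Subtype.ext
  rw [X.smul_val, map_one]
  group

theorem X.smul_smul (b c : Q) (x : X E D) : X.smul b (X.smul c x) = X.smul (b * c) x := by
  apply Subtype.ext
  rw [X.smul_val, X.smul_val, X.smul_val, map_mul]
  group

variable (E D)

/-- the base point -/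
def X.o : X E D := ⟨1, Or.inl rfl⟩

theorem X.smul_o (a : Q) : X.smul a (X.o E D) = X.o E D := by
  apply Subtype.ext
  rw [X.smul_val]
  change K.q E D a * 1 * (K.q E D a)⁻¹ = 1
  rw [mul_one, mul_inv_cancel]

/-- the Coxeter matrix: the orders of the quotients of two elements -/
noncomputable def Mt : CoxeterMatrix (X E D) where
  M := fun x z => orderOf (x.1⁻¹ * z.1)
  isSymm := by
    refine Matrix.IsSymm.ext fun x z => ?_
    have h : z.1⁻¹ * x.1 = (x.1⁻¹ * z.1)⁻¹ := by group
    rw [h, orderOf_inv]
  diagonal := by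
    intro x
    rw [inv_mul_cancel, orderOf_one]
  off_diagonal := by
    intro x z hxz h
    change orderOf (x.1⁻¹ * z.1) = 1 at h
    rw [orderOf_eq_one_iff, inv_mul_eq_one] at h
    exact hxz (Subtype.ext h)

theorem Mt_apply (x z : X E D) : Mt E D x z = orderOf (x.1⁻¹ * z.1) := rfl

/-- the Coxeter group -/
abbrev W : Type := (Mt E D).Group

/-- the simple reflections -/
noncomputable def si (x : X E D) : W E D := (Mt E D).simple x

theorem si_eq (x : X E D) : si E D x = (Mt E D).toCoxeterSystem.simple x :=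
  ((Mt E D).toCoxeterSystem_simple ▸ rfl)

theorem si_sq (x : X E D) : si E D x ^ 2 = 1 := by
  rw [si_eq]
  exact (Mt E D).toCoxeterSystem.simple_sq x

theorem si_inv (x : X E D) : (si E D x)⁻¹ = si E D x := by
  refine inv_eq_of_mul_eq_one_left ?_
  rw [← pow_two]
  exact si_sq E D x

theorem si_pow (x z : X E D) : (si E D x * si E D z) ^ orderOf (x.1⁻¹ * z.1) = 1 := by
  rw [si_eq, si_eq]
  exact (Mt E D).toCoxeterSystem.simple_mul_simple_pow x z

theorem si_pow_dvd {x z : X E D} {m : ℕ} (h : (x.1⁻¹ * z.1) ^ m = 1) :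
    (si E D x * si E D z) ^ m = 1 := by
  obtain ⟨k, rfl⟩ := orderOf_dvd_of_pow_eq_one h
  rw [pow_mul, si_pow, one_pow]

/-- homomorphisms from the Coxeter group -/
theorem exists_wlift {H : Type} [Group H] (f : X E D → H)
    (hf : ∀ x z, (f x * f z) ^ orderOf (x.1⁻¹ * z.1) = 1) :
    ∃ F : W E D →* H, ∀ x, F (si E D x) = f x := by
  have hf' : (Mt E D).IsLiftable f := hf
  refine ⟨(Mt E D).toCoxeterSystem.lift ⟨f, hf'⟩, fun x => ?_⟩
  rw [si_eq]
  exact CoxeterSystem.lift_apply_simple _ hf' x

theorem w_ext {H : Type} [Group H] {f g : W E D →* H} (h : ∀ x, f (si E D x) = g (si E D x)) :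
    f = g := by
  refine (Mt E D).toCoxeterSystem.ext_simple fun x => ?_
  rw [← si_eq]
  exact h x

theorem order_smul (a : Q) (x z : X E D) :
    orderOf ((X.smul a x).1⁻¹ * (X.smul a z).1) = orderOf (x.1⁻¹ * z.1) := by
  have h : (X.smul a x).1⁻¹ * (X.smul a z).1 = MulAut.conj (K.q E D a) (x.1⁻¹ * z.1) := by
    rw [X.smul_val, X.smul_val, MulAut.conj_apply]
    group
  rw [h]
  exact orderOf_injective (MulAut.conj (K.q E D a)).toMonoidHom (MulEquiv.injective _) _

/-- the action of an element of `Q` on the Coxeter group -/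
noncomputable def act0 (a : Q) : W E D →* W E D :=
  (exists_wlift E D (fun x => si E D (X.smul a x)) (by
    intro x z
    have h := si_pow E D (X.smul a x) (X.smul a z)
    rw [order_smul] at h
    exact h)).choose

theorem act0_si (a : Q) (x : X E D) : act0 E D a (si E D x) = si E D (X.smul a x) :=
  (exists_wlift E D (fun x => si E D (X.smul a x)) (by
    intro x z
    have h := si_pow E D (X.smul a x) (X.smul a z)
    rw [order_smul] at h
    exact h)).choose_spec x

theorem act0_mul (a b : Q) (w : W E D) : act0 E D a (act0 E D b w) = act0 E D (a * b) w := by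
  have h : (act0 E D a).comp (act0 E D b) = act0 E D (a * b) := by
    refine w_ext E D fun x => ?_
    rw [MonoidHom.comp_apply, act0_si, act0_si, act0_si, X.smul_smul]
  exact DFunLike.congr_fun h w

theorem act0_one (w : W E D) : act0 E D 1 w = w := by
  have h : act0 E D 1 = MonoidHom.id _ := by
    refine w_ext E D fun x => ?_
    rw [act0_si, X.smul_one]
    rfl
  exact DFunLike.congr_fun h w

/-- the action of `Q` on the Coxeter group -/
noncomputable def act : Q →* MulAut (W E D) where
  toFun a :=
    { toFun := act0 E D a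
      invFun := act0 E D a⁻¹
      left_inv := fun w => by rw [act0_mul, inv_mul_cancel, act0_one]
      right_inv := fun w => by rw [act0_mul, mul_inv_cancel, act0_one]
      map_mul' := fun v w => map_mul _ v w }
  map_one' := by
    ext w
    exact act0_one E D w
  map_mul' a b := by
    ext w
    exact (act0_mul E D a b w).symm

theorem act_si (a : Q) (x : X E D) : act E D a (si E D x) = si E D (X.smul a x) := act0_si E D a x

/-- the semidirect product -/
abbrev SD : Type := W E D ⋊[act E D] Q

theorem conj_inl (a : Q) (w : W E D) :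
    (SemidirectProduct.inr a * SemidirectProduct.inl w * (SemidirectProduct.inr a)⁻¹ : SD E D) =
      SemidirectProduct.inl (act E D a w) := by
  rw [SemidirectProduct.inl_aut, map_inv]

/-- a letter as a conjugate -/
def xy (i : I) : X E D := ⟨K.y E D i, Or.inr ⟨1, i, by rw [map_one]; group⟩⟩

/-- the homomorphism to the semidirect product -/
noncomputable def Phi : K E D →* SD E D :=
  K.lift (SemidirectProduct.inr)
    (fun i => SemidirectProduct.inl (si E D (X.o E D) * si E D (xy E D i))) (by
    intro a i j m h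
    rw [conj_inl, ← map_inv, ← map_mul, ← map_pow, map_mul, act_si, act_si, X.smul_o, mul_inv_rev,
      si_inv, si_inv]
    have h1 : (si E D (X.smul a (xy E D i)) * si E D (xy E D j)) ^ m = 1 :=
      si_pow_dvd E D (flip_pow (K.cox h))
    have h2 : si E D (X.o E D) * si E D (X.smul a (xy E D i)) *
        (si E D (xy E D j) * si E D (X.o E D)) =
        si E D (X.o E D) * (si E D (X.smul a (xy E D i)) * si E D (xy E D j)) *
          (si E D (X.o E D))⁻¹ := by
      rw [si_inv]
      group
    rw [h2, conj_pow, h1, mul_one, mul_inv_cancel, map_one]) (by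
    intro i m h
    rw [← map_pow]
    have h1 : (si E D (X.o E D) * si E D (xy E D i)) ^ m = 1 := by
      refine si_pow_dvd E D ?_
      change ((1 : K E D)⁻¹ * K.y E D i) ^ m = 1
      rw [inv_one, one_mul]
      exact K.pow h
    rw [h1, map_one])

/-- the holomorph -/
abbrev Hol : Type := K E D ⋊[MonoidHom.id (MulAut (K E D))] MulAut (K E D)

/-- the reflections in the holomorph -/
def rf (x : X E D) : Hol E D := SemidirectProduct.inr (K.thA E D) * SemidirectProduct.inl x.1

theorem inr_inl (x : K E D) : (SemidirectProduct.inr (K.thA E D) * SemidirectProduct.inl x :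
    Hol E D) = SemidirectProduct.inl (K.th x) * SemidirectProduct.inr (K.thA E D) := by
  have h := SemidirectProduct.inl_aut (φ := MonoidHom.id (MulAut (K E D))) (K.thA E D) x
  rw [MonoidHom.id_apply, K.thA_apply, map_inv] at h
  rw [h, inv_mul_cancel_right]

theorem rf_mul (x z : X E D) : rf E D x * rf E D z = SemidirectProduct.inl (x.1⁻¹ * z.1) := by
  unfold rf
  rw [inr_inl, mul_assoc, ← mul_assoc (SemidirectProduct.inr (K.thA E D)), ← map_mul, K.thA_mul,
    map_one, one_mul, ← map_mul, X.th]

theorem rf_smul (a : Q) (x : X E D) : rf E D (X.smul a x) =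
    SemidirectProduct.inl (K.q E D a) * rf E D x * (SemidirectProduct.inl (K.q E D a))⁻¹ := by
  have h1 : (SemidirectProduct.inr (K.thA E D) * SemidirectProduct.inl (K.q E D a) : Hol E D) =
      SemidirectProduct.inl (K.q E D a) * SemidirectProduct.inr (K.thA E D) := by
    rw [inr_inl, K.th_q]
  unfold rf
  rw [X.smul_val, map_mul, map_mul, map_inv, ← mul_assoc, ← mul_assoc, h1]
  group

/-- the homomorphism from the Coxeter group -/
theorem exists_psi : ∃ F : W E D →* Hol E D, ∀ x, F (si E D x) = rf E D x :=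
  exists_wlift E D (rf E D) (fun x z => by
    rw [rf_mul, ← map_pow, pow_orderOf_eq_one, map_one])

/-- the homomorphism from the semidirect product -/
theorem exists_Psi : ∃ F : SD E D →* Hol E D,
    (∀ a, F (SemidirectProduct.inr a) = SemidirectProduct.inl (K.q E D a)) ∧
    ∀ x, F (SemidirectProduct.inl (si E D x)) = rf E D x := by
  obtain ⟨F, hF⟩ := exists_psi E D
  refine ⟨SemidirectProduct.lift F
    ((SemidirectProduct.inl : K E D →* Hol E D).comp (K.q E D)) ?_, fun a => ?_, fun x => ?_⟩
  · intro a
    refine w_ext E D fun x => ?_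
    change F (act E D a (si E D x)) = SemidirectProduct.inl (K.q E D a) * F (si E D x) *
      (SemidirectProduct.inl (K.q E D a))⁻¹
    rw [act_si, hF, hF, rf_smul]
  · rw [SemidirectProduct.lift_inr]
    rfl
  · rw [SemidirectProduct.lift_inl, hF]

theorem Phi_injective : Function.Injective (Phi E D) := by
  obtain ⟨F, h1, h2⟩ := exists_Psi E D
  have h : F.comp (Phi E D) = SemidirectProduct.inl := by
    refine K.hom_ext (fun a => ?_) (fun i => ?_)
    · change F (K.lift _ _ _ _ (K.q E D a)) = SemidirectProduct.inl (K.q E D a)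
      rw [K.lift_q]
      exact h1 a
    · change F (K.lift _ _ _ _ (K.y E D i)) = SemidirectProduct.inl (K.y E D i)
      rw [K.lift_y, map_mul, map_mul, h2, h2, rf_mul]
      change SemidirectProduct.inl ((1 : K E D)⁻¹ * K.y E D i) = _
      rw [inv_one, one_mul]
  have h3 : Function.Injective (F.comp (Phi E D)) := by
    rw [h]
    exact SemidirectProduct.inl_injective
  intro x z hxz
  exact h3 (congrArg F hxz)

/-- the semidirect product is in the class -/
theorem sd_mem {C : ∀ (G : Type) [Group G], Prop} (hC : ClosedE C)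
    (hcox : ∀ (A : Type) (_ : Finite A) (M : CoxeterMatrix A), C M.Group) (hQ : C Q) :
    C (SD E D) := by
  have hinj : Function.Injective (SemidirectProduct.inl : W E D →* SD E D) :=
    SemidirectProduct.inl_injective
  have hrange : ∀ w : W E D, (SemidirectProduct.inl w : SD E D) ∈
      (SemidirectProduct.rightHom : SD E D →* Q).ker := by
    intro w
    rw [MonoidHom.mem_ker]
    exact SemidirectProduct.rightHom_inl _
  let e : W E D ≃* (SemidirectProduct.rightHom : SD E D →* Q).ker :=
    MulEquiv.ofBijective ((SemidirectProduct.inl : W E D →* SD E D).codRestrict _ hrange) (by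
      constructor
      · intro a b hab
        exact hinj (congrArg Subtype.val hab)
      · rintro ⟨g, hg⟩
        refine ⟨g.left, Subtype.ext ?_⟩
        exact SemidirectProduct.ext rfl (MonoidHom.mem_ker.1 hg).symm)
  have he : ∀ w, ((e w : (SemidirectProduct.rightHom : SD E D →* Q).ker) : SD E D) =
    SemidirectProduct.inl w := fun w => rfl
  refine Q30.FJ.cox_kernel hC (SD E D) (SemidirectProduct.rightHom : SD E D →* Q).ker ?_ (X E D)
    (Mt E D) ((Mt E D).toCoxeterSystem.map e) (fun A hA M' _ => hcox A hA M') ?_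
  · exact hC.base.of_injective _ Q (QuotientGroup.kerLift _) (QuotientGroup.kerLift_injective _) hQ
  · intro g F _
    refine ⟨e g.left⁻¹, fun x _ => ⟨X.smul g.right x, ?_⟩⟩
    have h1 : (SemidirectProduct.inl g.left⁻¹ : SD E D) * g = SemidirectProduct.inr g.right := by
      refine SemidirectProduct.ext ?_ ?_
      · simp
      · simp
    rw [CoxeterSystem.map_simple, CoxeterSystem.map_simple, he, he, he, h1, ← si_eq, ← si_eq,
      conj_inl, act_si]

/-- **One level.** -/
theorem k_mem {C : ∀ (G : Type) [Group G], Prop} (hC : ClosedE C)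
    (hcox : ∀ (A : Type) (_ : Finite A) (M : CoxeterMatrix A), C M.Group) (hQ : C Q) :
    C (K E D) :=
  hC.base.of_injective _ _ (Phi E D) (Phi_injective E D) (sd_mem E D hC hcox hQ)

end Pool.Agent.H91.CY
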