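import Pool.Agent.H91.CY.Eng

/-!
# Presentations with the relators `(w v w⁻¹ z⁻¹) ^ m` and `v ^ m`
-/

set_option autoImplicit false
set_option linter.style.haveILetI false
set_option linter.unusedSectionVars false
set_option linter.unusedVariables false

namespace Pool.Agent.H91.CY

open Monoid
open Pool.Agent.Y110.FJ (ClosedE)
open Pool.Agent.Y462.SS (Closed)
open Pool.Agent.H91.CP (lt High fh fh_inl fh_lt fhom_ext eq_high lt_mem inl_mem high_anti high_fin
  ncl_fin qm qm_id qm_qm qm_surj)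

section defs

variable {Q : Type} [Group Q] {V : Type}

/-- the relators `(w v w⁻¹ z⁻¹) ^ m` with `w` above `v`, `z` on the level of `v`, and `v ^ m` -/
def IsTor {P : Type*} [LT P] (rk : V → P) (x : Coprod Q (FreeGroup V)) : Prop :=
  ∃ (w : Coprod Q (FreeGroup V)) (v z : V) (m : ℕ), w ∈ High Q rk (rk v) ∧ rk z = rk v ∧
    (x = (w * lt Q v * w⁻¹ * (lt Q z)⁻¹) ^ m ∨ x = lt Q v ^ m)

/-- the presented group -/
abbrev TG (S : Set (Coprod Q (FreeGroup V))) : Type :=
  Coprod Q (FreeGroup V) ⧸ Subgroup.normalClosure S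

/-- the relators are killed if the letters on the level are -/
theorem kill {x : Coprod Q (FreeGroup V)}
    {H : Type} [Group H] (f : Coprod Q (FreeGroup V) →* H) {w : Coprod Q (FreeGroup V)} {v z : V}
    {m : ℕ} (h : x = (w * lt Q v * w⁻¹ * (lt Q z)⁻¹) ^ m ∨ x = lt Q v ^ m)
    (h1 : f (lt Q v) = 1) (h2 : f (lt Q z) = 1) : f x = 1 := by
  rcases h with rfl | rfl
  · simp only [map_pow, map_mul, map_inv, h1, h2, mul_one, inv_one, mul_inv_cancel, one_pow]
  · rw [map_pow, h1, one_pow]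

/-- a relator is in the subgroup above -/
theorem rmem {P : Type*} [Preorder P] {rk : V → P} {x : Coprod Q (FreeGroup V)}
    {p : P} {w : Coprod Q (FreeGroup V)} {v z : V} {m : ℕ} (hw : w ∈ High Q rk (rk v))
    (hz : rk z = rk v)
    (h : x = (w * lt Q v * w⁻¹ * (lt Q z)⁻¹) ^ m ∨ x = lt Q v ^ m)
    (hp : p < rk v) : x ∈ High Q rk p := by
  have h1 : w ∈ High Q rk p := high_anti rk hp.le hw
  have h2 : lt Q v ∈ High Q rk p := lt_mem rk hp
  have h3 : lt Q z ∈ High Q rk p := lt_mem rk (by rw [hz]; exact hp)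
  have h4 : w * lt Q v * w⁻¹ ∈ High Q rk p := mul_mem (mul_mem h1 h2) (inv_mem h1)
  rcases h with rfl | rfl
  · exact pow_mem (mul_mem h4 (inv_mem h3)) m
  · exact pow_mem h2 m

end defs

/-! ### the levels -/

section level

variable {Q : Type} [Group Q] {V : Type} (rk : V → ℕ)
  (S : Set (Coprod Q (FreeGroup V))) (k : ℕ)

/-- the relators of the group without the letters below `k` -/
def rels : Set (Coprod Q (FreeGroup V)) := S ∪ {x | ∃ v, rk v < k ∧ x = lt Q v}

/-- the group without the letters below `k` -/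
def Lv : Type := Coprod Q (FreeGroup V) ⧸ Subgroup.normalClosure (rels rk S k)

instance : Group (Lv rk S k) := inferInstanceAs (Group (_ ⧸ _))

/-- the projection -/
def pr : Coprod Q (FreeGroup V) →* Lv rk S k :=
  QuotientGroup.mk' (Subgroup.normalClosure (rels rk S k))

variable {rk S k}

theorem pr_rel {x : Coprod Q (FreeGroup V)} (h : x ∈ rels rk S k) : pr rk S k x = 1 :=
  (QuotientGroup.eq_one_iff _).2 (Subgroup.subset_normalClosure h)

/-- the universal property -/
def Lv.lift {H : Type} [Group H] (f : Coprod Q (FreeGroup V) →* H)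
    (hf : ∀ x ∈ rels rk S k, f x = 1) : Lv rk S k →* H :=
  QuotientGroup.lift _ f (by
    intro z hz
    have h4 : Subgroup.normalClosure (rels rk S k) ≤ f.ker :=
      Subgroup.normalClosure_le_normal hf
    exact h4 hz)

theorem Lv.hom_ext {H : Type} [Group H] {f g : Lv rk S k →* H}
    (h1 : ∀ a, f (pr rk S k (Coprod.inl a)) = g (pr rk S k (Coprod.inl a)))
    (h2 : ∀ v, f (pr rk S k (lt Q v)) = g (pr rk S k (lt Q v))) : f = g := by
  refine QuotientGroup.monoidHom_ext _ ?_
  exact fhom_ext h1 h2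

/-- the projection to `Q` -/
def Lv.toQ (hS : ∀ x ∈ S, IsTor rk x) : Lv rk S k →* Q :=
  Lv.lift (fh (MonoidHom.id Q) (fun _ => 1)) (by
    rintro x (hx | ⟨v, _, rfl⟩)
    · obtain ⟨w, v, z, m, -, -, h⟩ := hS x hx
      exact kill _ h (fh_lt _ _ _) (fh_lt _ _ _)
    · rw [fh_lt])

theorem Lv.toQ_inl (hS : ∀ x ∈ S, IsTor rk x) (a : Q) :
    Lv.toQ (k := k) hS (pr rk S k (Coprod.inl a)) = a :=
  (fh_inl (V := V) (MonoidHom.id Q) (fun _ => 1) a : _)

/-- above all levels -/
theorem Lv.toQ_injective (hS : ∀ x ∈ S, IsTor rk x) (hk : ∀ v, rk v < k) :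
    Function.Injective (Lv.toQ (k := k) hS) := by
  refine Function.LeftInverse.injective (g := (pr rk S k).comp Coprod.inl) ?_
  intro x
  have h : ((pr rk S k).comp Coprod.inl).comp (Lv.toQ (k := k) hS) = MonoidHom.id _ := by
    refine Lv.hom_ext (fun a => ?_) (fun v => ?_)
    · change pr rk S k (Coprod.inl (Lv.toQ hS (pr rk S k (Coprod.inl a)))) = _
      rw [Lv.toQ_inl]
      rfl
    · have h1 : pr rk S k (lt Q v) = 1 := pr_rel (Or.inr ⟨v, hk v, rfl⟩)
      rw [h1, map_one, map_one]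
  exact DFunLike.congr_fun h x

/-! ### the step -/

variable (rk S k)

/-- the relations of the first kind on the level `k` -/
def EE (q : Lv rk S (k + 1)) (i j : {v // rk v = k}) (m : ℕ) : Prop :=
  ∃ w ∈ High Q rk k, (w * lt Q i.1 * w⁻¹ * (lt Q j.1)⁻¹) ^ m ∈ S ∧ q = pr rk S (k + 1) w

/-- the relations of the second kind on the level `k` -/
def DD (i : {v // rk v = k}) (m : ℕ) : Prop := lt Q i.1 ^ m ∈ S

/-- the level `k` over the higher levels -/
abbrev KK : Type := K (EE rk S k) (DD rk S k)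

open scoped Classical in
/-- the map to `KK`, on the free product -/
noncomputable def th0 : Coprod Q (FreeGroup V) →* KK rk S k :=
  fh ((K.q (EE rk S k) (DD rk S k)).comp ((pr rk S (k + 1)).comp Coprod.inl))
    (fun v => if h : rk v = k then K.y (EE rk S k) (DD rk S k) ⟨v, h⟩
      else if k < rk v then K.q (EE rk S k) (DD rk S k) (pr rk S (k + 1) (lt Q v)) else 1)

variable {rk S k}

theorem th0_eq {v : V} (h : rk v = k) : th0 rk S k (lt Q v) =
    K.y (EE rk S k) (DD rk S k) ⟨v, h⟩ := by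
  unfold th0
  rw [fh_lt, dif_pos h]

theorem th0_gt {v : V} (h : k < rk v) : th0 rk S k (lt Q v) =
    K.q (EE rk S k) (DD rk S k) (pr rk S (k + 1) (lt Q v)) := by
  unfold th0
  rw [fh_lt, dif_neg (by omega), if_pos h]

theorem th0_lt {v : V} (h : rk v < k) : th0 rk S k (lt Q v) = 1 := by
  unfold th0
  rw [fh_lt, dif_neg (by omega), if_neg (by omega)]

theorem th0_high (w : Coprod Q (FreeGroup V)) (hw : w ∈ High Q rk k) : th0 rk S k w =
    K.q (EE rk S k) (DD rk S k) (pr rk S (k + 1) w) := by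
  refine eq_high (g := (K.q (EE rk S k) (DD rk S k)).comp (pr rk S (k + 1))) rk k
    (fun a => ?_) (fun v hv => ?_) w hw
  · unfold th0
    rw [fh_inl]
    rfl
  · rw [th0_gt hv]
    rfl

/-- the map to `KK` -/
noncomputable def th (hS : ∀ x ∈ S, IsTor rk x) : Lv rk S k →* KK rk S k :=
  Lv.lift (th0 rk S k) (by
    rintro x (hx | ⟨v, hv, rfl⟩)
    · obtain ⟨w, v, z, m, hw, hz, h⟩ := hS x hx
      rcases lt_trichotomy (rk v) k with hk | hk | hk
      · exact kill _ h (th0_lt hk) (th0_lt (by omega))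
      · have hw' : w ∈ High Q rk k := by rw [← hk]; exact hw
        rcases h with rfl | rfl
        · have h1 : EE rk S k (pr rk S (k + 1) w) ⟨v, hk⟩ ⟨z, hz.trans hk⟩ m :=
            ⟨w, hw', hx, rfl⟩
          have h2 := K.cox (D := DD rk S k) h1
          rw [map_pow, map_mul, map_mul, map_mul, map_inv, map_inv,
            th0_high w hw', th0_eq hk, th0_eq (hz.trans hk)]
          exact h2
        · have h1 : DD rk S k ⟨v, hk⟩ m := hx
          rw [map_pow, th0_eq hk]
          exact K.pow (E := EE rk S k) h1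
      · rw [th0_high x (rmem hw hz h hk), pr_rel (Or.inl hx), map_one]
    · exact th0_lt hv)

open scoped Classical in
/-- the section, on the free product -/
noncomputable def se0 (rk : V → ℕ) (S : Set (Coprod Q (FreeGroup V))) (k : ℕ) :
    Coprod Q (FreeGroup V) →* Lv rk S k :=
  fh ((pr rk S k).comp Coprod.inl) (fun v => if k < rk v then pr rk S k (lt Q v) else 1)

theorem se0_gt {v : V} (h : k < rk v) : se0 rk S k (lt Q v) = pr rk S k (lt Q v) := by
  unfold se0
  rw [fh_lt, if_pos h]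

theorem se0_le {v : V} (h : rk v ≤ k) : se0 rk S k (lt Q v) = 1 := by
  unfold se0
  rw [fh_lt, if_neg (by omega)]

theorem se0_high (w : Coprod Q (FreeGroup V)) (hw : w ∈ High Q rk k) :
    se0 rk S k w = pr rk S k w := by
  refine eq_high rk k (fun a => ?_) (fun v hv => se0_gt hv) w hw
  unfold se0
  rw [fh_inl]
  rfl

/-- the section -/
noncomputable def se (hS : ∀ x ∈ S, IsTor rk x) : Lv rk S (k + 1) →* Lv rk S k :=
  Lv.lift (se0 rk S k) (by
    rintro x (hx | ⟨v, hv, rfl⟩)
    · obtain ⟨w, v, z, m, hw, hz, h⟩ := hS x hx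
      rcases le_or_gt (rk v) k with hk | hk
      · exact kill _ h (se0_le hk) (se0_le (by omega))
      · rw [se0_high x (rmem hw hz h hk), pr_rel (Or.inl hx)]
    · exact se0_le (by omega))

/-- the left inverse -/
noncomputable def ps (hS : ∀ x ∈ S, IsTor rk x) : KK rk S k →* Lv rk S k :=
  K.lift (se hS) (fun i => pr rk S k (lt Q i.1)) (by
    rintro _ ⟨i, hi⟩ ⟨j, hj⟩ m ⟨w, hw, hx, rfl⟩
    have h1 : se hS (pr rk S (k + 1) w) = pr rk S k w := se0_high w hw
    have h2 : pr rk S k ((w * lt Q i * w⁻¹ * (lt Q j)⁻¹) ^ m) = 1 := pr_rel (Or.inl hx)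
    rw [map_pow, map_mul, map_mul, map_mul, map_inv, map_inv] at h2
    rw [h1]
    exact h2) (by
    rintro ⟨i, hi⟩ m h
    change pr rk S k (lt Q i) ^ m = 1
    rw [← map_pow]
    exact pr_rel (Or.inl h))

theorem ps_th (hS : ∀ x ∈ S, IsTor rk x) (x : Lv rk S k) : ps hS (th hS x) = x := by
  have h : (ps hS).comp (th hS) = MonoidHom.id (Lv rk S k) := by
    refine Lv.hom_ext (fun a => ?_) (fun v => ?_)
    · have h1 : th hS (pr rk S k (Coprod.inl a)) =
          K.q (EE rk S k) (DD rk S k) (pr rk S (k + 1) (Coprod.inl a)) :=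
        th0_high _ (inl_mem rk k a)
      rw [MonoidHom.comp_apply, h1]
      unfold ps
      rw [K.lift_q]
      exact se0_high _ (inl_mem rk k a)
    · rw [MonoidHom.comp_apply]
      rcases lt_trichotomy (rk v) k with hk | hk | hk
      · have h1 : pr rk S k (lt Q v) = 1 := pr_rel (Or.inr ⟨v, hk, rfl⟩)
        rw [h1, map_one, map_one, map_one]
      · have h1 : th hS (pr rk S k (lt Q v)) = K.y (EE rk S k) (DD rk S k) ⟨v, hk⟩ :=
          th0_eq hk
        rw [h1]
        unfold ps
        rw [K.lift_y]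
        rfl
      · have h1 : th hS (pr rk S k (lt Q v)) =
          K.q (EE rk S k) (DD rk S k) (pr rk S (k + 1) (lt Q v)) := th0_high _ (lt_mem rk hk)
        rw [h1]
        unfold ps
        rw [K.lift_q]
        exact se0_high _ (lt_mem rk hk)
  exact DFunLike.congr_fun h x

theorem th_injective (hS : ∀ x ∈ S, IsTor rk x) :
    Function.Injective (th (k := k) hS) :=
  Function.LeftInverse.injective (g := ps hS) (ps_th hS)

/-- **finitely many levels** -/
theorem lv_mem {C : ∀ (G : Type) [Group G], Prop} (hC : ClosedE C)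
    (hcox : ∀ (A : Type) (_ : Finite A) (M : CoxeterMatrix A), C M.Group)
    (hS : ∀ x ∈ S, IsTor rk x) (n : ℕ) (hn : ∀ v, rk v < n) (hQ : C Q) (m : ℕ) (k : ℕ) (hm : k + m = n) :
    C (Lv rk S k) := by
  induction m generalizing k with
  | zero =>
    rw [add_zero] at hm
    subst hm
    exact hC.base.of_injective _ _ (Lv.toQ hS) (Lv.toQ_injective hS hn) hQ
  | succ m ih =>
    have h1 := ih (k + 1) (by omega)
    exact hC.base.of_injective _ _ (th hS) (th_injective hS) (k_mem _ _ hC hcox h1)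

variable (rk S)

/-- the presented group is the group of all letters -/
def tg_lv : TG S ≃* Lv rk S 0 :=
  QuotientGroup.quotientMulEquivOfEq (by
    congr 1
    refine (Set.union_empty _).symm.trans ?_
    congr 1
    refine (Set.eq_empty_iff_forall_notMem.2 ?_).symm
    rintro _ ⟨v, hv, rfl⟩
    omega)

end level

/-! ### ranks in a partially ordered set -/

section colim

variable {Q : Type} [Group Q] {V : Type} {P : Type*} [Preorder P]

/-- one relator after a change of the ranks -/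
theorem rerank1 {rk : V → P} {x : Coprod Q (FreeGroup V)} (hx : IsTor rk x) :
    ∃ A : Set V, A.Finite ∧ ∀ rk' : V → ℕ, (∀ a ∈ A, ∀ b ∈ A, rk a < rk b → rk' a < rk' b) →
      (∀ a ∈ A, ∀ b ∈ A, rk a = rk b → rk' a = rk' b) → IsTor rk' x := by
  obtain ⟨w, v, z, m, hw, hz, h⟩ := hx
  obtain ⟨A, hA, hwA⟩ := high_fin rk _ w hw
  refine ⟨insert v (insert z A), (hA.insert z).insert v, fun rk' h1 h2 => ?_⟩
  refine ⟨w, v, z, m, ?_, ?_, h⟩
  · refine Subgroup.closure_mono (Set.union_subset_union_right _ ?_) hwA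
    rintro _ ⟨u, hu, hu', rfl⟩
    exact ⟨u, h1 v (Set.mem_insert _ _) u (Set.mem_insert_of_mem _ (Set.mem_insert_of_mem _ hu)) hu',
      rfl⟩
  · exact h2 z (Set.mem_insert_of_mem _ (Set.mem_insert _ _)) v (Set.mem_insert _ _) hz

/-- finitely many relators after a change of the ranks -/
theorem rerank {rk : V → P} {T : Set (Coprod Q (FreeGroup V))} (hT : T.Finite)
    (hx : ∀ x ∈ T, IsTor rk x) :
    ∃ (rk' : V → ℕ) (n : ℕ), (∀ v, rk' v < n) ∧ ∀ x ∈ T, IsTor rk' x := by
  classical
  choose! A hA hA' using fun x hx' => rerank1 (hx x hx')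
  obtain ⟨B, hB⟩ : ∃ B : Set V, B = ⋃ x ∈ T, A x := ⟨_, rfl⟩
  have hBf : B.Finite := by
    rw [hB]
    exact hT.biUnion fun x hx => hA x hx
  have hAB : ∀ x ∈ T, A x ⊆ B := by
    intro x hx a ha
    rw [hB]
    exact Set.mem_biUnion hx ha
  obtain ⟨D, hD⟩ : ∃ D : Finset P, D = (hBf.image rk).toFinset := ⟨_, rfl⟩
  have hD' : ∀ b ∈ B, rk b ∈ D := by
    intro b hb
    rw [hD, Set.Finite.mem_toFinset]
    exact ⟨b, hb, rfl⟩
  refine ⟨fun v => (D.filter (· < rk v)).card, D.card + 1, fun v => ?_, fun x hx => ?_⟩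
  · exact Nat.lt_succ_of_le (Finset.card_filter_le _ _)
  · refine hA' x hx _ (fun a ha b hb hab => ?_) (fun a _ b _ hab => ?_)
    · refine Finset.card_lt_card ?_
      rw [Finset.ssubset_iff_of_subset]
      · exact ⟨rk a, by simp [hD' a (hAB x hx ha), hab], by simp⟩
      · intro r hr
        rw [Finset.mem_filter] at hr ⊢
        exact ⟨hr.1, hr.2.trans hab⟩
    · change (D.filter (· < rk a)).card = (D.filter (· < rk b)).card
      rw [hab]

/-- finitely many relators -/
theorem tg_fin {C : ∀ (G : Type) [Group G], Prop} (hC : ClosedE C)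
    (hcox : ∀ (A : Type) (_ : Finite A) (M : CoxeterMatrix A), C M.Group) (hQ : C Q) {rk : V → P}
    {T : Set (Coprod Q (FreeGroup V))} (hT : T.Finite)
    (hx : ∀ x ∈ T, IsTor rk x) : C (TG T) := by
  obtain ⟨rk', n, hn, h⟩ := rerank hT hx
  exact hC.base.of_injective _ _ (tg_lv rk' T).toMonoidHom (tg_lv rk' T).injective
    (lv_mem hC hcox h n hn hQ n 0 (by omega))

/-- an element of a normal closure is in the normal closure of a finite subset -/
theorem ncl_fin' {F : Type} [Group F] (S : Set F) (g : F) (hg : g ∈ Subgroup.normalClosure S) :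
    ∃ T : Set F, T.Finite ∧ T ⊆ S ∧ g ∈ Subgroup.normalClosure T := by
  have h1 : g ∈ Subgroup.normalClosure (S ∪ ∅) := by rwa [Set.union_empty]
  obtain ⟨T, hT, hTS, h2⟩ := ncl_fin _ _ _ h1
  rw [Set.union_empty] at h2
  exact ⟨T, hT, hTS, h2⟩

/-- **The general membership theorem.** -/
theorem tg_mem {C : ∀ (G : Type) [Group G], Prop} (hC : ClosedE C)
    (hcox : ∀ (A : Type) (_ : Finite A) (M : CoxeterMatrix A), C M.Group) (hQ : C Q) {rk : V → P}
    {S : Set (Coprod Q (FreeGroup V))} (hx : ∀ x ∈ S, IsTor rk x) :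
    C (TG S) := by
  have hm : ∀ A B : Set (Coprod Q (FreeGroup V)), A ⊆ B → Subgroup.normalClosure A ≤
      Subgroup.normalClosure B := fun A B h => Subgroup.normalClosure_mono h
  haveI : Nonempty {T : Set (Coprod Q (FreeGroup V)) // T.Finite ∧ T ⊆ S} :=
    ⟨⟨∅, Set.finite_empty, Set.empty_subset _⟩⟩
  refine hC.base.colim {T : Set (Coprod Q (FreeGroup V)) // T.Finite ∧ T ⊆ S} ?_
    (fun T => TG T.1) (fun i j h => qm (hm i.1 j.1 h)) (TG S)
    (fun i => qm (hm i.1 S i.2.2)) ?_ ?_ ?_ ?_ ?_ ?_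
  · intro i j
    exact ⟨⟨i.1 ∪ j.1, i.2.1.union j.2.1, Set.union_subset i.2.2 j.2.2⟩, Set.subset_union_left,
      Set.subset_union_right⟩
  · intro i h x
    exact qm_id _ x
  · intro i j k h h' x
    exact qm_qm _ _ x
  · intro i j h x
    exact qm_qm _ _ x
  · intro y
    exact ⟨⟨∅, Set.finite_empty, Set.empty_subset _⟩, qm_surj _ y⟩
  · intro i x hx1
    induction x using QuotientGroup.induction_on with
    | H g =>
      have h1 : ((g : Coprod Q (FreeGroup V)) : TG S) = 1 := hx1
      rw [QuotientGroup.eq_one_iff] at h1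
      obtain ⟨T, hT, hTS, hg⟩ := ncl_fin' S g h1
      refine ⟨⟨i.1 ∪ T, i.2.1.union hT, Set.union_subset i.2.2 hTS⟩, Set.subset_union_left, ?_⟩
      change ((g : Coprod Q (FreeGroup V)) : TG (i.1 ∪ T)) = 1
      rw [QuotientGroup.eq_one_iff]
      exact hm _ _ Set.subset_union_right hg
  · intro i
    exact tg_fin hC hcox hQ i.2.1 (fun x hx' => hx x (i.2.2 hx'))

/-- the retraction to `Q` -/
def toQ {rk : V → P} {S : Set (Coprod Q (FreeGroup V))}
    (hx : ∀ x ∈ S, IsTor rk x) : TG S →* Q :=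
  QuotientGroup.lift _ (fh (MonoidHom.id Q) (fun _ => 1)) (by
    intro z hz
    have h4 : Subgroup.normalClosure S ≤ (fh (MonoidHom.id Q) (fun _ : V => (1 : Q))).ker := by
      refine Subgroup.normalClosure_le_normal ?_
      intro x hx'
      obtain ⟨w, v, z, m, -, -, h⟩ := hx x hx'
      exact kill _ h (fh_lt _ _ _) (fh_lt _ _ _)
    exact h4 hz)

/-- the inclusion of `Q` -/
def inQ (S : Set (Coprod Q (FreeGroup V))) : Q →* TG S :=
  (QuotientGroup.mk' _).comp Coprod.inl

theorem toQ_inQ {rk : V → P} {S : Set (Coprod Q (FreeGroup V))}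
    (hx : ∀ x ∈ S, IsTor rk x) (a : Q) : toQ hx (inQ S a) = a :=
  (fh_inl (V := V) (MonoidHom.id Q) (fun _ => 1) a : _)

theorem inQ_injective {rk : V → P} {S : Set (Coprod Q (FreeGroup V))}
    (hx : ∀ x ∈ S, IsTor rk x) : Function.Injective (inQ S) :=
  Function.LeftInverse.injective (g := toQ hx) (toQ_inQ hx)

theorem tg_iff {C : ∀ (G : Type) [Group G], Prop} (hC : ClosedE C)
    (hcox : ∀ (A : Type) (_ : Finite A) (M : CoxeterMatrix A), C M.Group) {rk : V → P}
    {S : Set (Coprod Q (FreeGroup V))} (hx : ∀ x ∈ S, IsTor rk x) :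
    C (TG S) ↔ C Q :=
  ⟨fun h => hC.base.of_injective _ _ (inQ S) (inQ_injective hx) h,
    fun h => tg_mem hC hcox h hx⟩

end colim

end Pool.Agent.H91.CY
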